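import Mathlib
import Pool.Agent.W426.SM.Stm

set_option autoImplicit false

namespace Pool.Agent.W475.SM

open MeasureTheory Pool.Agent.W426.SM

variable {B : Type} [Fintype B]

theorem lin_le_exp (δ : ℝ) (hδ : 0 < δ) (a : ℝ) (_ha : 0 ≤ a) :
    ∃ C : ℝ, 0 ≤ C ∧ ∀ t : ℝ, a + |t| ≤ C * Real.exp (δ * t ^ 2) := by
  refine ⟨a + 1 + 1 / δ, by positivity, fun t => ?_⟩
  have h1 : 1 + δ * t ^ 2 ≤ Real.exp (δ * t ^ 2) := by
    have := Real.add_one_le_exp (δ * t ^ 2); linarith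
  have h2 : 0 ≤ δ * t ^ 2 := by positivity
  have h3 : |t| ≤ 1 + t ^ 2 := by
    have := sq_abs t
    nlinarith [sq_nonneg (|t| - 1), abs_nonneg t]
  have h4 : a + |t| ≤ (a + 1 + 1 / δ) * (1 + δ * t ^ 2) := by
    have h5 : (a + 1 + 1 / δ) * (1 + δ * t ^ 2) =
        (a + 1) + 1 / δ + (a + 1) * (δ * t ^ 2) + (1 / δ * δ) * t ^ 2 := by ring
    rw [h5, one_div_mul_cancel hδ.ne']
    have h6 : 0 < 1 / δ := by positivity
    have h7 : 0 ≤ (a + 1) * (δ * t ^ 2) := by positivity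
    linarith
  have h8 : (a + 1 + 1 / δ) * (1 + δ * t ^ 2) ≤ (a + 1 + 1 / δ) * Real.exp (δ * t ^ 2) :=
    mul_le_mul_of_nonneg_left h1 (by positivity)
  linarith

/-- Bound of a polynomial by a Gaussian, uniformly for the real parts in a bounded set. -/
theorem poly_bd (P : MvPolynomial B ℂ) (K : ℝ) (hK : 0 ≤ K) :
    ∀ δ : ℝ, 0 < δ → ∃ C : ℝ, 0 ≤ C ∧ ∀ (z : B → ℂ) (y : B → ℝ),
      (∀ b, ‖z b‖ ≤ K + |y b|) →
      ‖MvPolynomial.eval z P‖ ≤ C * Real.exp (δ * ∑ b, y b ^ 2) := by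
  induction P using MvPolynomial.induction_on with
  | C a =>
    intro δ hδ
    refine ⟨‖a‖, norm_nonneg _, fun z y _ => ?_⟩
    rw [MvPolynomial.eval_C]
    have h0 : 0 ≤ δ * ∑ b, y b ^ 2 :=
      mul_nonneg hδ.le (Finset.sum_nonneg fun b _ => sq_nonneg _)
    have := Real.one_le_exp h0
    nlinarith [norm_nonneg a]
  | add p q hp hq =>
    intro δ hδ
    obtain ⟨C1, hC1, h1⟩ := hp δ hδ
    obtain ⟨C2, hC2, h2⟩ := hq δ hδ
    refine ⟨C1 + C2, add_nonneg hC1 hC2, fun z y hz => ?_⟩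
    rw [map_add]
    calc ‖MvPolynomial.eval z p + MvPolynomial.eval z q‖
        ≤ ‖MvPolynomial.eval z p‖ + ‖MvPolynomial.eval z q‖ := norm_add_le _ _
      _ ≤ C1 * Real.exp (δ * ∑ b, y b ^ 2) + C2 * Real.exp (δ * ∑ b, y b ^ 2) :=
          add_le_add (h1 z y hz) (h2 z y hz)
      _ = _ := by ring
  | mul_X p b hp =>
    intro δ hδ
    obtain ⟨C1, hC1, h1⟩ := hp (δ / 2) (by positivity)
    obtain ⟨C2, hC2, h2⟩ := lin_le_exp (δ / 2) (by positivity) K hK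
    refine ⟨C1 * C2, mul_nonneg hC1 hC2, fun z y hz => ?_⟩
    rw [map_mul, MvPolynomial.eval_X, norm_mul]
    have h3 : ‖z b‖ ≤ C2 * Real.exp (δ / 2 * y b ^ 2) := (hz b).trans (h2 (y b))
    have h4 : Real.exp (δ / 2 * y b ^ 2) ≤ Real.exp (δ / 2 * ∑ b, y b ^ 2) := by
      apply Real.exp_le_exp.mpr
      apply mul_le_mul_of_nonneg_left _ (by positivity)
      exact Finset.single_le_sum (f := fun b => y b ^ 2) (fun i _ => sq_nonneg _)
        (Finset.mem_univ b)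
    have h5 : ‖z b‖ ≤ C2 * Real.exp (δ / 2 * ∑ b, y b ^ 2) :=
      h3.trans (mul_le_mul_of_nonneg_left h4 hC2)
    calc ‖MvPolynomial.eval z p‖ * ‖z b‖
        ≤ (C1 * Real.exp (δ / 2 * ∑ b, y b ^ 2)) * (C2 * Real.exp (δ / 2 * ∑ b, y b ^ 2)) :=
          mul_le_mul (h1 z y hz) h5 (norm_nonneg _) (by positivity)
      _ = C1 * C2 * (Real.exp (δ / 2 * ∑ b, y b ^ 2) * Real.exp (δ / 2 * ∑ b, y b ^ 2)) := by
          ring
      _ = _ := by rw [← Real.exp_add]; congr 2; ring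

theorem gauss_integrable (c : ℝ) (hc : 0 < c) :
    Integrable (fun y : B → ℝ => Real.exp (-c * ∑ b, y b ^ 2)) volume := by
  have h : (fun y : B → ℝ => Real.exp (-c * ∑ b, y b ^ 2)) =
      fun y : B → ℝ => ∏ b, Real.exp (-c * y b ^ 2) := by
    funext y
    rw [← Real.exp_sum, Finset.mul_sum]
  rw [h]
  exact Integrable.fintype_prod (f := fun (_ : B) (t : ℝ) => Real.exp (-c * t ^ 2))
    (fun _ => integrable_exp_neg_mul_sq hc)

/-- The exponential factor. -/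
theorem norm_exp_factor (η : B → ℝ) (R : ℝ) (x y : B → ℝ) :
    ‖Complex.exp ((R : ℂ) * (∑ b, (η b : ℂ) * ((x b : ℂ) + y b * Complex.I)) +
      ∑ b, ((x b : ℂ) + y b * Complex.I) ^ 2)‖ =
      Real.exp (R * ∑ b, η b * x b) * Real.exp (∑ b, x b ^ 2) *
        Real.exp (-∑ b, y b ^ 2) := by
  rw [Complex.norm_exp, ← Real.exp_add, ← Real.exp_add]
  congr 1
  have h1 : (∑ b, (η b : ℂ) * ((x b : ℂ) + y b * Complex.I)).re = ∑ b, η b * x b := by
    rw [Complex.re_sum]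
    exact Finset.sum_congr rfl fun b _ => by simp
  have h2 : (∑ b, ((x b : ℂ) + y b * Complex.I) ^ 2).re = ∑ b, x b ^ 2 - ∑ b, y b ^ 2 := by
    rw [Complex.re_sum, ← Finset.sum_sub_distrib]
    exact Finset.sum_congr rfl fun b _ => by simp [pow_two]
  rw [Complex.add_re, Complex.re_ofReal_mul, h1, h2]
  ring

theorem aff_re (a : ℝ) (ℓ : B → ℝ) (x y : B → ℝ) :
    (aff a ℓ (fun b => (x b : ℂ) + y b * Complex.I)).re = a + ∑ b, ℓ b * x b := by
  unfold aff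
  rw [Complex.add_re, Complex.re_sum, Complex.ofReal_re]
  congr 1
  exact Finset.sum_congr rfl fun b _ => by simp

theorem aff_norm_ge (a : ℝ) (ℓ : B → ℝ) (x y : B → ℝ) :
    |a + ∑ b, ℓ b * x b| ≤ ‖aff a ℓ (fun b => (x b : ℂ) + y b * Complex.I)‖ := by
  rw [← aff_re a ℓ x y]
  exact Complex.abs_re_le_norm _

theorem rc2 : S_RC2 := by
  intro B _ M η P a ℓ x hx
  set K : ℝ := ∑ b, |x b| with hKdef
  have hK : 0 ≤ K := Finset.sum_nonneg fun b _ => abs_nonneg _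
  obtain ⟨C, hC, hP⟩ := poly_bd P K hK (1 / 2) (by norm_num)
  set D : ℝ := ∏ q, |a q + ∑ b, ℓ q b * x b| with hD
  have hDpos : 0 < D := Finset.prod_pos fun q _ => abs_pos.mpr (hx q)
  refine ⟨Real.exp (∑ b, x b ^ 2) * C / D * ∫ y : B → ℝ, Real.exp (-(1 / 2) * ∑ b, y b ^ 2),
    fun R => ?_⟩
  have hint := gauss_integrable (B := B) (1 / 2) (by norm_num)
  have key : ∀ y : B → ℝ, ‖EE η R P a ℓ (fun b => (x b : ℂ) + y b * Complex.I)‖ ≤
      (Real.exp (R * ∑ b, η b * x b) * (Real.exp (∑ b, x b ^ 2) * C / D)) *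
        Real.exp (-(1 / 2) * ∑ b, y b ^ 2) := by
    intro y
    unfold EE
    rw [norm_mul, norm_exp_factor, norm_div, norm_prod]
    have h1 : D ≤ ∏ q, ‖aff (a q) (ℓ q) (fun b => (x b : ℂ) + y b * Complex.I)‖ :=
      Finset.prod_le_prod (fun q _ => abs_nonneg _) (fun q _ => aff_norm_ge _ _ _ _)
    have h2 : ‖MvPolynomial.eval (fun b => (x b : ℂ) + y b * Complex.I) P‖ ≤
        C * Real.exp (1 / 2 * ∑ b, y b ^ 2) := by
      apply hP _ y
      intro b
      calc ‖(x b : ℂ) + y b * Complex.I‖ ≤ ‖(x b : ℂ)‖ + ‖(y b : ℂ) * Complex.I‖ :=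
            norm_add_le _ _
        _ = |x b| + |y b| := by simp
        _ ≤ K + |y b| := by
            have := Finset.single_le_sum (f := fun b => |x b|) (fun i _ => abs_nonneg _)
              (Finset.mem_univ b)
            linarith
    have h3 : ‖MvPolynomial.eval (fun b => (x b : ℂ) + y b * Complex.I) P‖ /
        ∏ q, ‖aff (a q) (ℓ q) (fun b => (x b : ℂ) + y b * Complex.I)‖ ≤
        C * Real.exp (1 / 2 * ∑ b, y b ^ 2) / D :=
      div_le_div₀ (by positivity) h2 hDpos h1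
    calc Real.exp (R * ∑ b, η b * x b) * Real.exp (∑ b, x b ^ 2) * Real.exp (-∑ b, y b ^ 2) *
          (‖MvPolynomial.eval (fun b => (x b : ℂ) + y b * Complex.I) P‖ /
            ∏ q, ‖aff (a q) (ℓ q) (fun b => (x b : ℂ) + y b * Complex.I)‖)
        ≤ Real.exp (R * ∑ b, η b * x b) * Real.exp (∑ b, x b ^ 2) *
            Real.exp (-∑ b, y b ^ 2) * (C * Real.exp (1 / 2 * ∑ b, y b ^ 2) / D) :=
          mul_le_mul_of_nonneg_left h3 (by positivity)
      _ = (Real.exp (R * ∑ b, η b * x b) * (Real.exp (∑ b, x b ^ 2) * C / D)) *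
            (Real.exp (-∑ b, y b ^ 2) * Real.exp (1 / 2 * ∑ b, y b ^ 2)) := by ring
      _ = _ := by
          rw [← Real.exp_add]
          congr 2
          ring
  have hfin := norm_integral_le_of_norm_le (hint.const_mul
    (Real.exp (R * ∑ b, η b * x b) * (Real.exp (∑ b, x b ^ 2) * C / D)))
    (Filter.Eventually.of_forall key)
  refine hfin.trans (le_of_eq ?_)
  rw [integral_const_mul]
  ring

theorem main : Pool.Agent.W426.SM.S_RC2 := rc2

end Pool.Agent.W475.SM
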